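import Pool.Agent.H.MP_ddf3f5_co.B

/-! Distinct simple reflections (any rank), inversion sets, weak order and Bruhat order. -/

set_option autoImplicit false

namespace Pool.Agent.H.Cox

open Finset Classical

section inj

variable {B : Type} (M : CoxeterMatrix B)

/-- contragredient simple reflection -/
noncomputable def τ (i : B) : Module.End ℝ (B → ℝ) where
  toFun v := v - (2 * v i) • g M i
  map_add' u v := by rw [Pi.add_apply, mul_add, add_smul]; abel
  map_smul' c v := by
    rw [RingHom.id_apply, smul_sub, smul_smul, Pi.smul_apply, smul_eq_mul]; congr 2; ring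

lemma τ_apply (i : B) (v : B → ℝ) : τ M i v = v - (2 * v i) • g M i := rfl

lemma τ_left (i j : B) (x y : ℝ) :
    τ M i (x • g M i + y • g M j) =
      (2 * Real.cos (Real.pi / M i j) * y - x) • g M i + y • g M j := by
  rw [map_add, map_smul, map_smul, τ_apply, τ_apply, g_self, g_symm M j i]
  have : g M i j = - Real.cos (Real.pi / M i j) := rfl
  rw [this]
  module

lemma τ_τ (i : B) (v : B → ℝ) : τ M i (τ M i v) = v := by
  conv_lhs => rw [τ_apply M i v, map_sub, map_smul, τ_apply, τ_apply, g_self]
  module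

lemma τ_pow (i j : B) (k : ℕ) : ((τ M i * τ M j) ^ k) (g M i) =
    U (Real.cos (Real.pi / M i j)) (2 * k + 1) • g M i +
      U (Real.cos (Real.pi / M i j)) (2 * k) • g M j := by
  induction k with
  | zero => simp [U]
  | succ k ih =>
    rw [pow_succ', Module.End.mul_apply, ih, Module.End.mul_apply, add_comm, τ_left, add_comm,
      τ_left, M.symmetric j i]
    have a1 : 2 * (k + 1) + 1 = (2 * k + 1) + 2 := by ring
    have a2 : 2 * (k + 1) = 2 * k + 2 := by ring
    rw [a1, a2, U, U]

lemma τ_pow_self (i j : B) (h : 2 ≤ M i j) : ((τ M i * τ M j) ^ M i j) (g M i) = g M i := by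
  rw [τ_pow]
  have hs := sin_pos h
  have hm' : (M i j : ℝ) ≠ 0 := by
    have : M i j ≠ 0 := by omega
    exact_mod_cast this
  have h1 := U_sin (Real.pi / M i j) (2 * M i j)
  have h2 := U_sin (Real.pi / M i j) (2 * M i j + 1)
  have a1 : ((2 * M i j : ℕ) : ℝ) * (Real.pi / M i j) = 2 * Real.pi := by
    push_cast; field_simp
  have a2 : ((2 * M i j + 1 : ℕ) : ℝ) * (Real.pi / M i j) = Real.pi / M i j + 2 * Real.pi := by
    push_cast; field_simp; ring
  rw [a1, Real.sin_two_pi] at h1
  rw [a2, Real.sin_add_two_pi] at h2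
  have b1 : U (Real.cos (Real.pi / M i j)) (2 * M i j) = 0 := by
    rcases mul_eq_zero.1 h1 with h | h
    · exact h
    · exact absurd h hs.ne'
  have b2 : U (Real.cos (Real.pi / M i j)) (2 * M i j + 1) = 1 := by
    have : (U (Real.cos (Real.pi / M i j)) (2 * M i j + 1) - 1) * Real.sin (Real.pi / M i j) = 0 := by
      rw [sub_mul, h2]; ring
    rcases mul_eq_zero.1 this with h | h
    · linarith
    · exact absurd h hs.ne'
  rw [b1, b2]; simp

lemma τ_inv (i j : B) (k : ℕ) (v : B → ℝ) :
    ((τ M i * τ M j) ^ k) (((τ M j * τ M i) ^ k) v) = v := by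
  induction k generalizing v with
  | zero => simp
  | succ k ih =>
    rw [pow_succ, pow_succ', Module.End.mul_apply, Module.End.mul_apply, Module.End.mul_apply,
      Module.End.mul_apply, τ_τ, τ_τ, ih]

lemma τ_liftable : M.IsLiftable (τ M) := by
  intro i j
  by_cases hij : i = j
  · subst hij
    rw [M.diagonal, pow_one]
    exact LinearMap.ext fun v => τ_τ M i v
  rcases Nat.eq_zero_or_pos (M i j) with h0 | h0
  · rw [h0, pow_zero]
  have h2 : 2 ≤ M i j := by have := M.off_diagonal i j hij; omega
  have hi := τ_pow_self M i j h2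
  have hj : ((τ M i * τ M j) ^ M i j) (g M j) = g M j := by
    have := τ_pow_self M j i (by rwa [M.symmetric j i])
    rw [M.symmetric j i] at this
    conv_lhs => rw [← this]
    exact τ_inv M i j _ _
  set c := g M i j with hc
  have hc1 : 1 - c ^ 2 ≠ 0 := by
    have hs := sin_pos h2
    have : 1 - c ^ 2 = Real.sin (Real.pi / M i j) ^ 2 := by
      rw [hc, g, neg_sq, Real.sin_sq]
    rw [this]; positivity
  apply LinearMap.ext; intro v
  set x := (v i - c * v j) / (1 - c ^ 2)
  set y := (v j - c * v i) / (1 - c ^ 2)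
  set v' := v - x • g M i - y • g M j with hv'
  have h3 : v' i = 0 := by
    rw [hv']
    simp only [Pi.sub_apply, Pi.smul_apply, smul_eq_mul, g_self, g_symm M j i, ← hc, x, y]
    field_simp; ring
  have h4 : v' j = 0 := by
    rw [hv']
    simp only [Pi.sub_apply, Pi.smul_apply, smul_eq_mul, g_self, ← hc, x, y]
    field_simp; ring
  have h5 : ∀ k : ℕ, ((τ M i * τ M j) ^ k) v' = v' := by
    intro k
    induction k with
    | zero => simp
    | succ k ih =>
      rw [pow_succ', Module.End.mul_apply, ih, Module.End.mul_apply, τ_apply M j, h4, τ_apply]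
      simp [h3]
  have h6 : v = v' + x • g M i + y • g M j := by rw [hv']; abel
  rw [Module.End.one_apply]
  conv_lhs => rw [h6, map_add, map_add, map_smul, map_smul, h5, hi, hj]
  exact h6.symm

theorem simple_injective {M : CoxeterMatrix B} {W : Type} [Group W] (cs : CoxeterSystem M W) :
    Function.Injective cs.simple := by
  intro i j h
  by_contra hij
  have h1 := congrArg (cs.lift ⟨τ M, τ_liftable M⟩) h
  rw [cs.lift_apply_simple, cs.lift_apply_simple] at h1
  have h2 := congrFun (LinearMap.congr_fun h1 (Pi.single i 1)) i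
  have h3 : j ≠ i := fun h => hij h.symm
  simp [τ_apply, g_self, h3] at h2

end inj

variable {B : Type} [Fintype B] {M : CoxeterMatrix B} {W : Type} [Group W] {cs : CoxeterSystem M W}

lemma PR.not_neg {β : B → ℝ} (h : PR cs β) : ¬ β ≤ 0 := fun h' => by
  have h1 := h.1.norm
  rw [le_antisymm h' h.2] at h1
  simp [bf] at h1

lemma Root.pr_of_not {β : B → ℝ} (h : Root cs β) (h' : ¬ β ≤ 0) : PR cs β :=
  ⟨h, h.sign.resolve_right h'⟩

lemma refl_pos {t : W} {β : B → ℝ} (hβ : PR cs β) (ht : Refl cs t β) (w : W)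
    (h : cs.length w < cs.length (w * t)) : PR cs (ρ cs w β) := by
  induction hn : cs.length w using Nat.strong_induction_on generalizing w with
  | _ n ih =>
  by_cases hw : w = 1
  · rw [hw, ρ_one]; exact hβ
  obtain ⟨i, hi⟩ := cs.exists_leftDescent_of_ne_one hw
  unfold CoxeterSystem.IsLeftDescent at hi
  have h1 : cs.length (cs.simple i * w) < cs.length (cs.simple i * w * t) := by
    rw [mul_assoc]
    rcases cs.length_simple_mul (w * t) i with h' | h' <;>
      rcases cs.length_simple_mul w i with h'' | h'' <;> omega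
  have h2 := ih _ (by omega) _ h1 rfl
  have h3 : ρ cs w β = Cox.σ M i (ρ cs (cs.simple i * w) β) := by
    rw [ρ_mul, ρ_simple, σ_σ]
  rw [h3]
  refine h2.σ fun h4 => ?_
  have h5 := ht.conj (cs.simple i * w)
  rw [h4] at h5
  have h6 := h5.unique (refl_simple i)
  have h7 : w * t = cs.simple i * w := by
    rw [mul_inv_eq_iff_eq_mul, mul_assoc, mul_right_inj] at h6
    exact h6
  rw [h7] at h; omega

variable (cs) in
/-- `β` is a left inversion of `w` -/
def N (w : W) (β : B → ℝ) : Prop := ρ cs w⁻¹ β ≤ 0

lemma Refl.self {t : W} {β : B → ℝ} (hβ : Root cs β) (ht : Refl cs t β) : ρ cs t β = -β := by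
  rw [ht, hβ.norm, mul_one, two_smul]; abel

theorem refl_lt_iff {t : W} {β : B → ℝ} (hβ : PR cs β) (ht : Refl cs t β)
    (hr : cs.IsReflection t) (w : W) : cs.length (t * w) < cs.length w ↔ N cs w β := by
  have e1 : cs.length (w⁻¹ * t) = cs.length (t * w) := by
    rw [← cs.length_inv, mul_inv_rev, hr.inv, inv_inv]
  constructor
  · intro h
    have := refl_pos hβ ht (w⁻¹ * t) (by
      rw [mul_assoc, hr.mul_self, mul_one, e1, cs.length_inv]; exact h)
    rw [ρ_mul, Refl.self hβ.1 ht, map_neg] at this
    exact neg_nonneg.1 this.2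
  · intro h
    by_contra hc
    have := hr.length_mul_right_ne w
    exact (refl_pos hβ ht w⁻¹ (by rw [e1, cs.length_inv]; omega)).not_neg h

lemma simple_lt_iff (i : B) (w : W) :
    cs.length (cs.simple i * w) < cs.length w ↔ N cs w (e i) :=
  refl_lt_iff (pr_e i) (refl_simple i) (cs.isReflection_simple i) w

lemma N_simple_mul (i : B) (w : W) (β : B → ℝ) :
    N cs (cs.simple i * w) (Cox.σ M i β) ↔ N cs w β := by
  rw [N, N, mul_inv_rev, ρ_mul, cs.inv_simple, ρ_simple, σ_σ]

lemma N_simple_self (i : B) (w : W) : N cs (cs.simple i * w) (e i) ↔ ¬ N cs w (e i) := by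
  rw [← simple_lt_iff, ← simple_lt_iff, cs.simple_mul_simple_cancel_left]
  have := cs.length_simple_mul_ne w i
  omega

variable (cs) in
/-- right weak order through inversion sets -/
def Le (a c : W) : Prop := ∀ β, PR cs β → N cs a β → N cs c β

lemma Le.refl (a : W) : Le cs a a := fun _ _ h => h

lemma Le.trans {a c d : W} (h : Le cs a c) (h' : Le cs c d) : Le cs a d :=
  fun β h1 h2 => h' β h1 (h β h1 h2)

lemma not_N_one {β : B → ℝ} (h : PR cs β) : ¬ N cs 1 β := by
  rw [N, inv_one, ρ_one]; exact h.not_neg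

lemma Le.simple_mul {a c : W} (h : Le cs a c) {i : B} (hi : N cs c (e i) → N cs a (e i)) :
    Le cs (cs.simple i * a) (cs.simple i * c) := by
  intro β h1 h2
  by_cases hb : β = e i
  · subst hb
    rw [N_simple_self] at h2 ⊢
    exact mt hi h2
  · rw [← σ_σ M i β, N_simple_mul] at h2 ⊢
    exact h _ (h1.σ hb) h2

lemma Le.simple_mul_le {a m : W} (h : Le cs a m) {i : B} (hm : N cs m (e i))
    (ha : ¬ N cs a (e i)) : Le cs (cs.simple i * a) m := by
  intro β h1 h2
  by_cases hb : β = e i
  · rwa [hb]
  have h3 := h1.σ hb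
  rw [← σ_σ M i β, N_simple_mul] at h2
  set δ := Cox.σ M i β with hδ
  have h4 : β = δ - (2 * b M i δ) • e i := by rw [← σ_apply, hδ, σ_σ]
  rcases le_or_gt (b M i δ) 0 with h5 | h5
  · have h6 := h δ h3 h2
    unfold N at hm h6 ⊢
    rw [h4, map_sub, map_smul, sub_nonpos]
    exact h6.trans (smul_nonneg_of_nonpos_of_nonpos (by linarith) hm)
  · refine h β h1 ?_
    have h6 := (((root_e (cs := cs) i).map a⁻¹).pr_of_not ha).2
    unfold N at h2 ⊢
    rw [h4, map_sub, map_smul, sub_nonpos]
    exact h2.trans (smul_nonneg (by linarith) h6)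

lemma N_mul_simple {k : W} {i : B} {β : B → ℝ} (hβ : PR cs β) (h : N cs (k * cs.simple i) β)
    (h' : ¬ N cs k β) : β = ρ cs k (e i) := by
  have h1 := (hβ.1.map k⁻¹).pr_of_not h'
  by_contra hc
  have h2 := h1.σ (i := i) (fun h3 => hc (by rw [← h3, ρ_inv']))
  apply h2.not_neg
  rwa [N, mul_inv_rev, ρ_mul, cs.inv_simple, ρ_simple] at h

lemma le_mul_simple {k : W} {i : B} (h : cs.length k < cs.length (k * cs.simple i)) :
    Le cs k (k * cs.simple i) := by
  intro β h1 h2
  by_contra hc
  have h3 := N_mul_simple (k := k * cs.simple i) (i := i) h1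
    (by rwa [cs.simple_mul_simple_cancel_right]) hc
  apply h1.not_neg
  rw [h3]
  exact neg_of_lt cs _ i (by rwa [cs.simple_mul_simple_cancel_right])

lemma le_of_length {a c : W} (h : cs.length a + cs.length (a⁻¹ * c) = cs.length c) :
    Le cs a c := by
  induction hn : cs.length (a⁻¹ * c) using Nat.strong_induction_on generalizing c with
  | _ n ih =>
  by_cases h1 : a⁻¹ * c = 1
  · rw [inv_mul_eq_one] at h1; rw [h1]; exact Le.refl _
  obtain ⟨i, hi⟩ := cs.exists_rightDescent_of_ne_one h1
  unfold CoxeterSystem.IsRightDescent at hi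
  have h2 := cs.length_mul_le a (a⁻¹ * c * cs.simple i)
  rw [mul_assoc] at hi
  rw [mul_assoc, mul_inv_cancel_left] at h2
  have h3 : cs.length (c * cs.simple i) + 1 = cs.length c := by
    rcases cs.length_mul_simple c i with h' | h' <;> omega
  have h4 : cs.length (a⁻¹ * (c * cs.simple i)) + 1 = cs.length (a⁻¹ * c) := by
    rcases cs.length_mul_simple (a⁻¹ * c) i with h' | h' <;> rw [mul_assoc] at h' <;> omega
  refine (ih _ (by omega) (c := c * cs.simple i) (by omega) rfl).trans ?_
  have := le_mul_simple (cs := cs) (k := c * cs.simple i) (i := i)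
    (by rw [cs.simple_mul_simple_cancel_right]; omega)
  rwa [cs.simple_mul_simple_cancel_right] at this

lemma Le.length {a c : W} (h : Le cs a c) :
    cs.length a + cs.length (a⁻¹ * c) = cs.length c := by
  induction hn : cs.length a using Nat.strong_induction_on generalizing a c with
  | _ n ih =>
  by_cases h1 : a = 1
  · subst h1; simp [← hn]
  obtain ⟨i, hi⟩ := cs.exists_leftDescent_of_ne_one h1
  unfold CoxeterSystem.IsLeftDescent at hi
  have h2 := (simple_lt_iff i a).1 hi
  have h3 := (simple_lt_iff i c).2 (h _ (pr_e i) h2)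
  have h4 := ih _ (by omega) (h.simple_mul fun _ => h2) rfl
  have h5 : (cs.simple i * a)⁻¹ * (cs.simple i * c) = a⁻¹ * c := by
    rw [mul_inv_rev, mul_assoc, inv_mul_cancel_left]
  rw [h5] at h4
  rcases cs.length_simple_mul a i with h' | h' <;>
    rcases cs.length_simple_mul c i with h'' | h'' <;> omega

lemma Le.cover {k z : W} (h : Le cs k z) (hne : k ≠ z) :
    ∃ i, cs.length k < cs.length (k * cs.simple i) ∧ Le cs (k * cs.simple i) z := by
  have h1 := h.length
  obtain ⟨i, hi⟩ := cs.exists_leftDescent_of_ne_one (w := k⁻¹ * z)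
    (by rwa [Ne, inv_mul_eq_one])
  unfold CoxeterSystem.IsLeftDescent at hi
  have h2 := cs.length_mul_le (k * cs.simple i) (cs.simple i * (k⁻¹ * z))
  rw [mul_assoc, cs.simple_mul_simple_cancel_left, mul_inv_cancel_left] at h2
  refine ⟨i, by omega, le_of_length ?_⟩
  rw [mul_inv_rev, cs.inv_simple, mul_assoc]
  rcases cs.length_mul_simple k i with h' | h' <;>
    rcases cs.length_simple_mul (k⁻¹ * z) i with h'' | h'' <;> omega

/-- the minimal exit lemma -/
theorem min_exit {z m j : W} {γ : B → ℝ} (hγ : PR cs γ) (hj : Le cs j z) (h1 : N cs j γ)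
    (h2 : ¬ N cs m γ) (hmin : ∀ g, Le cs g z → cs.length g < cs.length j → Le cs g m) :
    ∀ g, Le cs g z → N cs g γ → Le cs j g := by
  induction hn : cs.length j using Nat.strong_induction_on generalizing z m j γ with
  | _ n ih =>
  have hj1 : j ≠ 1 := by rintro rfl; exact not_N_one hγ h1
  obtain ⟨i, hi⟩ := cs.exists_leftDescent_of_ne_one hj1
  unfold CoxeterSystem.IsLeftDescent at hi
  have hij := (simple_lt_iff i j).1 hi
  have hiz := hj _ (pr_e i) hij
  have hs : ∀ a, N cs a (e i) → Le cs (cs.simple i) a := by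
    intro a ha
    have := Le.simple_mul_le (a := 1) (m := a) (fun β h h' => (not_N_one h h').elim) ha
      (not_N_one (pr_e i))
    rwa [mul_one] at this
  by_cases hl : cs.simple i * j = 1
  · have hji : j = cs.simple i := by
      rw [← cs.simple_mul_simple_cancel_left (w := j) i, hl, mul_one]
    have : γ = e i := by
      have := N_mul_simple (k := 1) (i := i) hγ (by rwa [one_mul, ← hji]) (not_N_one hγ)
      rwa [ρ_one] at this
    intro g _ hg
    rw [hji]; exact hs g (this ▸ hg)
  have hl2 : 1 < cs.length j := by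
    have := mt cs.length_eq_zero_iff.1 hl
    omega
  have him : N cs m (e i) := by
    refine hmin _ (hs z hiz) (by rwa [cs.length_simple]) _ (pr_e i) ?_
    rw [← simple_lt_iff, cs.simple_mul_simple_self, cs.length_one, cs.length_simple]
    exact one_pos
  have hγi : γ ≠ e i := by rintro rfl; exact h2 him
  have key := @ih (cs.length (cs.simple i * j)) (by omega) (cs.simple i * z) (cs.simple i * m)
    (cs.simple i * j) _ (hγ.σ hγi) (hj.simple_mul fun _ => hij) ((N_simple_mul i j γ).2 h1)
    (by rwa [N_simple_mul]) (by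
      intro g hg hl
      have a1 : ¬ N cs (cs.simple i * z) (e i) := by rw [N_simple_self]; exact not_not.2 hiz
      have a2 : ¬ N cs g (e i) := fun h => a1 (hg _ (pr_e i) h)
      have a3 := hg.simple_mul (i := i) fun h => (a1 h).elim
      rw [cs.simple_mul_simple_cancel_left] at a3
      have a4 := hmin _ a3 (by
        rcases cs.length_simple_mul g i with h' | h' <;>
          rcases cs.length_simple_mul j i with h'' | h'' <;> omega)
      have a5 := a4.simple_mul (i := i) fun _ => (N_simple_self i g).2 a2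
      rwa [cs.simple_mul_simple_cancel_left] at a5) rfl
  have key2 : ∀ g, Le cs g z → N cs g γ → N cs g (e i) → Le cs j g := by
    intro g hg a1 a2
    have a3 := key _ (hg.simple_mul fun _ => a2) ((N_simple_mul i g γ).2 a1)
    have a4 := a3.simple_mul (i := i) fun h => ((N_simple_self i g).1 h a2).elim
    rwa [cs.simple_mul_simple_cancel_left, cs.simple_mul_simple_cancel_left] at a4
  intro h hh hhγ
  by_cases hhi : N cs h (e i)
  · exact key2 h hh hhγ hhi
  exfalso
  set P : ℕ → Prop := fun l => ∃ k, cs.length k = l ∧ Le cs k z ∧ N cs k γ ∧ ¬ N cs k (e i) with hP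
  have hb : ∀ l, P l → l ≤ cs.length z := by
    rintro l ⟨k, rfl, a1, -⟩
    have := a1.length; omega
  have hP0 : P (cs.length h) := ⟨h, rfl, hh, hhγ, hhi⟩
  obtain ⟨k, a0, a1, a2, a3⟩ := Nat.findGreatest_spec (hb _ hP0) hP0
  obtain ⟨i', a4, a5⟩ := a1.cover (by rintro rfl; exact a3 hiz)
  have a6 := le_mul_simple a4 _ hγ a2
  have a7 : N cs (k * cs.simple i') (e i) := by
    by_contra hc
    have : P (cs.length (k * cs.simple i')) := ⟨_, rfl, a5, a6, hc⟩
    have := Nat.le_findGreatest (hb _ this) this
    omega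
  have a8 : k * cs.simple i' = cs.simple i * k := by
    have b1 := (refl_simple (cs := cs) i').conj k
    rw [← N_mul_simple (pr_e i) a7 a3] at b1
    rw [← b1.unique (refl_simple i), inv_mul_cancel_right]
  have a9 := (key2 _ a5 a6 a7).simple_mul (i := i) fun _ => hij
  rw [a8, cs.simple_mul_simple_cancel_left] at a9
  have b1 := (hmin _ (a9.trans a1) hi).simple_mul_le him (by
    rw [N_simple_self]; exact not_not.2 hij)
  rw [cs.simple_mul_simple_cancel_left] at b1
  exact h2 (b1 _ hγ h1)

end Pool.Agent.H.Cox
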