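import Pool.Agent.H.MP_272625_co.A

/-! Bruhat order, lifting, and the description of joins through Bruhat paths. -/

set_option autoImplicit false

namespace Pool.Agent.H.Cox

open Finset Classical

variable {B : Type} [Fintype B] {M : CoxeterMatrix B} {W : Type} [Group W] {cs : CoxeterSystem M W}

variable (cs) in
/-- edges of the Bruhat graph -/
def E (y y' : W) : Prop := ∃ t, cs.IsReflection t ∧ y' = t * y ∧ cs.length y < cs.length y'

variable (cs) in
/-- Bruhat order -/
def Br : W → W → Prop := Relation.ReflTransGen (E cs)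

lemma E.simple_mul {y y' : W} (h : E cs y y') (i : B) :
    y' = cs.simple i * y ∨ E cs (cs.simple i * y) (cs.simple i * y') := by
  obtain ⟨t, ht, rfl, hl⟩ := h
  obtain ⟨β, h1, h2⟩ := exists_pr ht
  by_cases hb : β = e i
  · left; rw [hb] at h2; rw [h2.unique (refl_simple i)]
  right
  have h3 := h2.conj (cs.simple i)
  have h4 := ht.conj (cs.simple i)
  rw [ρ_simple] at h3
  have h5 : cs.simple i * (t * y) = cs.simple i * t * (cs.simple i)⁻¹ * (cs.simple i * y) := by
    group
  refine ⟨_, h4, h5, ?_⟩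
  have h6 := refl_lt_iff (h1.σ hb) h3 h4 (cs.simple i * y)
  rw [N_simple_mul, ← refl_lt_iff h1 h2 ht] at h6
  have h7 := h4.length_mul_right_ne (cs.simple i * y)
  rw [h5]; omega

omit [Fintype B] in
lemma E_simple {y : W} {i : B} (h : cs.length y < cs.length (cs.simple i * y)) :
    E cs y (cs.simple i * y) := ⟨_, cs.isReflection_simple i, rfl, h⟩

variable (cs) in
/-- the longer of `y` and `s y` -/
noncomputable def up (i : B) (y : W) : W :=
  if cs.length y < cs.length (cs.simple i * y) then cs.simple i * y else y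

variable (cs) in
/-- the shorter of `y` and `s y` -/
noncomputable def dn (i : B) (y : W) : W :=
  if cs.length y < cs.length (cs.simple i * y) then y else cs.simple i * y

omit [Fintype B] in
lemma br_up (i : B) (y : W) : Br cs y (up cs i y) ∧ Br cs (cs.simple i * y) (up cs i y) := by
  unfold up
  split_ifs with h
  · exact ⟨Relation.ReflTransGen.single (E_simple h), Relation.ReflTransGen.refl⟩
  · refine ⟨Relation.ReflTransGen.refl, Relation.ReflTransGen.single ?_⟩
    have := E_simple (cs := cs) (y := cs.simple i * y) (i := i) (by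
      have := cs.length_simple_mul_ne y i
      rw [cs.simple_mul_simple_cancel_left]; omega)
    rwa [cs.simple_mul_simple_cancel_left] at this

omit [Fintype B] in
lemma br_dn (i : B) (y : W) : Br cs (dn cs i y) y ∧ Br cs (dn cs i y) (cs.simple i * y) := by
  unfold dn
  split_ifs with h
  · exact ⟨Relation.ReflTransGen.refl, Relation.ReflTransGen.single (E_simple h)⟩
  · refine ⟨Relation.ReflTransGen.single ?_, Relation.ReflTransGen.refl⟩
    have := E_simple (cs := cs) (y := cs.simple i * y) (i := i) (by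
      have := cs.length_simple_mul_ne y i
      rw [cs.simple_mul_simple_cancel_left]; omega)
    rwa [cs.simple_mul_simple_cancel_left] at this

lemma Br.up {y z : W} (h : Br cs y z) (i : B) : Br cs (up cs i y) (up cs i z) := by
  induction h with
  | refl => exact Relation.ReflTransGen.refl
  | @tail a c _ h2 ih =>
    refine Relation.ReflTransGen.trans ih ?_
    by_cases h : cs.length a < cs.length (cs.simple i * a)
    · rw [Cox.up, if_pos h]
      rcases h2.simple_mul i with h3 | h3
      · rw [← h3]; exact (br_up i c).1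
      · exact Relation.ReflTransGen.head h3 (br_up i c).2
    · rw [Cox.up, if_neg h]
      exact Relation.ReflTransGen.head h2 (br_up i c).1

lemma Br.dn {y z : W} (h : Br cs y z) (i : B) : Br cs (dn cs i y) (dn cs i z) := by
  induction h with
  | refl => exact Relation.ReflTransGen.refl
  | @tail a c _ h2 ih =>
    refine Relation.ReflTransGen.trans ih ?_
    by_cases h : cs.length c < cs.length (cs.simple i * c)
    · rw [Cox.dn.eq_1 cs i c, if_pos h]
      exact Relation.ReflTransGen.tail (br_dn i a).1 h2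
    · rw [Cox.dn.eq_1 cs i c, if_neg h]
      rcases h2.simple_mul i with h3 | h3
      · rw [h3, cs.simple_mul_simple_cancel_left]; exact (br_dn i a).1
      · exact Relation.ReflTransGen.tail (br_dn i a).2 h3

lemma Br.lift1 {y z : W} (h : Br cs y z) {i : B} (hz : N cs z (e i)) :
    Br cs (cs.simple i * y) z := by
  have h1 := h.up i
  rw [← simple_lt_iff] at hz
  rw [Cox.up.eq_1 cs i z, if_neg (by omega)] at h1
  exact Relation.ReflTransGen.trans (br_up i y).2 h1

lemma Br.lift2 {y z : W} (h : Br cs y z) {i : B} (hy : N cs y (e i)) (hz : N cs z (e i)) :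
    Br cs (cs.simple i * y) (cs.simple i * z) := by
  have h1 := h.dn i
  rw [← simple_lt_iff] at hy hz
  rwa [Cox.dn, Cox.dn, if_neg (by omega), if_neg (by omega)] at h1

omit [Fintype B] in
lemma Br.length {y z : W} (h : Br cs y z) : y = z ∨ cs.length y < cs.length z := by
  induction h with
  | refl => exact Or.inl rfl
  | tail _ h2 ih =>
    obtain ⟨t, -, -, h3⟩ := h2
    rcases ih with rfl | h4
    · exact Or.inr h3
    · exact Or.inr (h4.trans h3)

lemma Br.exit {y z k : W} {i : B} (h : Br cs y z) (hy : Le cs k y)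
    (hl : cs.length k < cs.length (k * cs.simple i)) (hz : Le cs (k * cs.simple i) z) :
    Br cs (k * cs.simple i * k⁻¹ * y) z := by
  induction hn : cs.length k using Nat.strong_induction_on generalizing k y z with
  | _ n ih =>
  by_cases h1 : k = 1
  · subst h1
    rw [one_mul, inv_one, mul_one]
    refine h.lift1 (hz _ (pr_e i) ?_)
    rw [← simple_lt_iff, one_mul, cs.simple_mul_simple_self]
    rwa [one_mul] at hl
  obtain ⟨a, ha⟩ := cs.exists_leftDescent_of_ne_one h1
  unfold CoxeterSystem.IsLeftDescent at ha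
  have h2 := (simple_lt_iff a k).1 ha
  have h3 := le_mul_simple hl _ (pr_e a) h2
  have h4 := hy _ (pr_e a) h2
  have h5 := hz _ (pr_e a) h3
  have h6 := hz.simple_mul (i := a) fun _ => h3
  rw [← mul_assoc] at h6
  have h7 := ih _ (by omega) (h.lift2 h4 h5) (hy.simple_mul fun _ => h2) (by
    rw [mul_assoc]
    rcases cs.length_simple_mul (k * cs.simple i) a with h' | h' <;>
      rcases cs.length_simple_mul k a with h'' | h'' <;> omega) h6 rfl
  have h8 : Br cs (cs.simple a * z) z := Br.lift1 Relation.ReflTransGen.refl h5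
  have h9 := Br.lift1 (Relation.ReflTransGen.trans h7 h8) h5
  have h10 : cs.simple a * (cs.simple a * k * cs.simple i * (cs.simple a * k)⁻¹ *
      (cs.simple a * y)) = k * cs.simple i * k⁻¹ * y := by
    rw [mul_inv_rev, mul_assoc (cs.simple a) k, mul_assoc (cs.simple a), mul_assoc (cs.simple a),
      cs.simple_mul_simple_cancel_left]
    group
  rwa [h10] at h9

/-- below the top of a Bruhat interval there is an upward edge whose label avoids `p` or `q` -/
lemma Br.step {y z p q : W} (h : Br cs y z) (hne : y ≠ z) (hp : Le cs p z) (hq : Le cs q z)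
    (hpq : ∀ i, N cs p (e i) → ¬ N cs q (e i)) :
    ∃ t β, cs.IsReflection t ∧ PR cs β ∧ Refl cs t β ∧ N cs z β ∧ ¬ N cs y β ∧
      (¬ N cs p β ∨ ¬ N cs q β) ∧ Br cs (t * y) z := by
  have h0 : ∃ l, ∃ j, cs.length j = l ∧ Le cs j z ∧ ¬ Le cs j y := by
    refine ⟨_, z, rfl, Le.refl z, fun h1 => ?_⟩
    have := h1.length
    have := h.length.resolve_left hne
    omega
  obtain ⟨j, h1, h2, h3⟩ := Nat.find_spec h0
  have hmin : ∀ g, Le cs g z → cs.length g < cs.length j → Le cs g y := by
    intro g a1 a2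
    by_contra a3
    have := Nat.find_min' h0 ⟨g, rfl, a1, a3⟩
    omega
  have hj1 : j ≠ 1 := by
    rintro rfl; exact h3 fun β a1 a2 => (not_N_one a1 a2).elim
  obtain ⟨i, hi⟩ := cs.exists_rightDescent_of_ne_one hj1
  unfold CoxeterSystem.IsRightDescent at hi
  set k := j * cs.simple i with hk
  have hj : j = k * cs.simple i := by rw [hk, cs.simple_mul_simple_cancel_right]
  have hl : cs.length k < cs.length (k * cs.simple i) := by rwa [← hj]
  have hky : Le cs k y := hmin k ((le_mul_simple hl).trans (hj ▸ h2)) hi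
  have hβ : PR cs (ρ cs k (e i)) := ⟨(root_e i).map k, pos_of_lt cs k i hl⟩
  have hjβ : N cs j (ρ cs k (e i)) := by
    rw [N, hj, mul_inv_rev, ρ_mul, ρ_inv, cs.inv_simple, ρ_simple, σ_self, neg_nonpos]
    exact (pr_e (cs := cs) i).2
  have hyβ : ¬ N cs y (ρ cs k (e i)) := by
    intro a1
    refine h3 fun β a2 a3 => ?_
    by_cases a4 : N cs k β
    · exact hky β a2 a4
    · rwa [N_mul_simple a2 (hj ▸ a3) a4]
  refine ⟨k * cs.simple i * k⁻¹, _, ⟨k, i, rfl⟩, hβ, (refl_simple i).conj k, h2 _ hβ hjβ, hyβ, ?_,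
    h.exit hky hl (hj ▸ h2)⟩
  by_contra hc
  push Not at hc
  have a1 := min_exit hβ h2 hjβ hyβ hmin
  obtain ⟨a, ha⟩ := cs.exists_leftDescent_of_ne_one hj1
  have a2 := (simple_lt_iff a j).1 ha
  exact hpq a (a1 p hp hc.1 _ (pr_e a) a2) (a1 q hq hc.2 _ (pr_e a) a2)

lemma flip {w : W} {t : W} {β : B → ℝ} (hβ : PR cs β) (ht : Refl cs t β) (hw : N cs w β) :
    PR cs (-ρ cs w⁻¹ β) ∧ Refl cs (w⁻¹ * t * w) (-ρ cs w⁻¹ β) ∧
      ∀ x, N cs (w⁻¹ * x) (-ρ cs w⁻¹ β) ↔ ¬ N cs x β := by
  refine ⟨⟨(hβ.1.map _).neg, neg_nonneg.2 hw⟩, by simpa using (ht.conj w⁻¹).neg, fun x => ?_⟩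
  rw [N, N, mul_inv_rev, inv_inv, ρ_mul, map_neg, ρ_inv', map_neg, neg_nonpos]
  exact ⟨fun h => PR.not_neg ⟨hβ.1.map _, h⟩, fun h => ((hβ.1.map _).pr_of_not h).2⟩

variable (cs) in
/-- vertices of Bruhat paths with labels among the left reflections of `u` or `v` -/
def Reach (u v x : W) : Prop := ∃ (n : ℕ) (f : ℕ → W), f 0 = 1 ∧ f n = x ∧
  ∀ i, i < n → ∃ r : W, cs.IsReflection r ∧
    (cs.length (r * u) < cs.length u ∨ cs.length (r * v) < cs.length v) ∧
    f (i + 1) = r * f i ∧ cs.length (f i) < cs.length (f (i + 1))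

omit [Fintype B] in
lemma Reach.step {u v x r : W} (h : Reach cs u v x) (hr : cs.IsReflection r)
    (h1 : cs.length (r * u) < cs.length u ∨ cs.length (r * v) < cs.length v)
    (h2 : cs.length x < cs.length (r * x)) : Reach cs u v (r * x) := by
  obtain ⟨n, f, a1, a2, a3⟩ := h
  refine ⟨n + 1, fun i => if i ≤ n then f i else r * x, by simpa using a1, by simp, fun i hi => ?_⟩
  rcases Nat.lt_succ_iff_lt_or_eq.1 hi with h | rfl
  · simpa [h.le, Nat.succ_le_of_lt h] using a3 i h
  · exact ⟨r, hr, h1, by simp [a2], by simpa [a2] using h2⟩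

theorem reach_of_br {u v j : W} (hu : cs.length u + cs.length (u⁻¹ * j) = cs.length j)
    (hv : cs.length v + cs.length (v⁻¹ * j) = cs.length j)
    (hj : ∀ w : W, cs.length u + cs.length (u⁻¹ * w) = cs.length w →
      cs.length v + cs.length (v⁻¹ * w) = cs.length w →
      cs.length j + cs.length (j⁻¹ * w) = cs.length w)
    (x : W) (hx : Br cs (j⁻¹ * x) j⁻¹) : Reach cs u v x := by
  induction hn : cs.length x using Nat.strong_induction_on generalizing x with
  | _ n ih =>
  by_cases h1 : x = 1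
  · exact ⟨0, fun _ => 1, rfl, h1.symm, fun i hi => absurd hi (Nat.not_lt_zero i)⟩
  have hle : ∀ a, cs.length a + cs.length (a⁻¹ * j) = cs.length j → Le cs (j⁻¹ * a) j⁻¹ := by
    intro a ha
    apply le_of_length
    have e1 : (j⁻¹ * a)⁻¹ * j⁻¹ = a⁻¹ := by group
    have e2 : j⁻¹ * a = (a⁻¹ * j)⁻¹ := by group
    rw [e1, e2, cs.length_inv, cs.length_inv, cs.length_inv]; omega
  have hd : ∀ a i, cs.length a + cs.length (a⁻¹ * j) = cs.length j → N cs (j⁻¹ * a) (e i) →
      cs.length (j * cs.simple i) < cs.length j ∧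
      cs.length a + cs.length (a⁻¹ * (j * cs.simple i)) = cs.length (j * cs.simple i) := by
    intro a i ha hN
    have a1 := (simple_lt_iff i _).2 (hle a ha _ (pr_e i) hN)
    rw [← simple_lt_iff] at hN
    have e1 : cs.simple i * j⁻¹ = (j * cs.simple i)⁻¹ := by rw [mul_inv_rev, cs.inv_simple]
    have e2 : j⁻¹ * a = (a⁻¹ * j)⁻¹ := by group
    have e3 : cs.simple i * (a⁻¹ * j)⁻¹ = (a⁻¹ * j * cs.simple i)⁻¹ := by
      rw [mul_inv_rev (a⁻¹ * j), cs.inv_simple]
    rw [e1, cs.length_inv, cs.length_inv] at a1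
    rw [e2, e3, cs.length_inv, cs.length_inv] at hN
    rw [← mul_assoc]
    rcases cs.length_mul_simple (a⁻¹ * j) i with h' | h' <;>
      rcases cs.length_mul_simple j i with h'' | h'' <;> omega
  obtain ⟨t, β, a1, a2, a3, a4, a5, a6, a7⟩ := hx.step (by rwa [Ne, mul_eq_left]) (hle u hu)
    (hle v hv) (by
      intro i b1 b2
      have b3 := hd u i hu b1
      have := hj _ b3.2 (hd v i hv b2).2
      omega)
  obtain ⟨b1, b2, b3⟩ := flip a2 a3 a4
  have b4 : cs.IsReflection (j⁻¹⁻¹ * t * j⁻¹) := by simpa using a1.conj j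
  have b5 : ∀ a, cs.length (j⁻¹⁻¹ * t * j⁻¹ * a) < cs.length a ↔ ¬ N cs (j⁻¹ * a) β := by
    intro a
    rw [refl_lt_iff b1 b2 b4, ← b3, inv_mul_cancel_left]
  have b6 := (b5 x).2 a5
  have b7 := ih _ (by omega) (j⁻¹⁻¹ * t * j⁻¹ * x) (by
    have : j⁻¹ * (j⁻¹⁻¹ * t * j⁻¹ * x) = t * (j⁻¹ * x) := by group
    rwa [this]) rfl
  have b8 : j⁻¹⁻¹ * t * j⁻¹ * (j⁻¹⁻¹ * t * j⁻¹ * x) = x := by
    rw [← mul_assoc, b4.mul_self, one_mul]
  have := b7.step b4 (by rw [b5, b5]; exact a6) (by rwa [b8])
  rwa [b8] at this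

theorem lt_of_reach {u v j : W} (hu : cs.length u + cs.length (u⁻¹ * j) = cs.length j)
    (hv : cs.length v + cs.length (v⁻¹ * j) = cs.length j) {x : W} (hx : Reach cs u v x) :
    x = 1 ∨ cs.length (j⁻¹ * x) < cs.length j := by
  obtain ⟨n, f, a1, a2, a3⟩ := hx
  have key : ∀ i, i ≤ n → cs.length (j⁻¹ * f i) + i ≤ cs.length j := by
    intro i
    induction i with
    | zero => intro _; rw [a1, mul_one, cs.length_inv]; rfl
    | succ i ih =>
      intro hi
      obtain ⟨r, b1, b2, b3, b4⟩ := a3 i hi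
      obtain ⟨β, c1, c2⟩ := exists_pr b1
      have c3 : N cs j β := by
        rw [refl_lt_iff c1 c2 b1, refl_lt_iff c1 c2 b1] at b2
        exact b2.elim (le_of_length hu β c1) (le_of_length hv β c1)
      obtain ⟨d1, d2, d3⟩ := flip c1 c2 c3
      have d4 : cs.IsReflection (j⁻¹ * r * j) := by simpa using b1.conj j⁻¹
      have d5 := (refl_lt_iff d1 d2 d4 (j⁻¹ * f i)).2 ((d3 _).2 (by
        rw [← refl_lt_iff c1 c2 b1, ← b3]; omega))
      have d6 : j⁻¹ * r * j * (j⁻¹ * f i) = j⁻¹ * f (i + 1) := by rw [b3]; group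
      rw [d6] at d5
      have := ih (by omega)
      omega
  rcases Nat.eq_zero_or_pos n with rfl | hn
  · exact Or.inl (a2.symm.trans a1)
  · have := key n le_rfl
    rw [a2] at this
    right; omega

theorem dyer {u v j : W} (hu : cs.length u + cs.length (u⁻¹ * j) = cs.length j)
    (hv : cs.length v + cs.length (v⁻¹ * j) = cs.length j)
    (hj : ∀ w : W, cs.length u + cs.length (u⁻¹ * w) = cs.length w →
      cs.length v + cs.length (v⁻¹ * w) = cs.length w →
      cs.length j + cs.length (j⁻¹ * w) = cs.length w)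
    (t : W) (ht : cs.IsReflection t) :
    cs.length (t * j) < cs.length j ↔ Reach cs u v t := by
  have e1 : cs.length (j⁻¹ * t) = cs.length (t * j) := by
    rw [← cs.length_inv, mul_inv_rev, ht.inv, inv_inv]
  constructor
  · intro h
    refine reach_of_br hu hv hj t (Relation.ReflTransGen.single
      ⟨j⁻¹ * t * j, by simpa using ht.conj j⁻¹, ?_, by rwa [e1, cs.length_inv]⟩)
    rw [mul_assoc, mul_inv_cancel_left, mul_assoc, ht.mul_self, mul_one]
  · intro h
    rcases lt_of_reach hu hv h with h1 | h1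
    · have := ht.odd_length
      rw [h1, cs.length_one] at this
      exact absurd this (by decide)
    · rwa [e1] at h1

end Pool.Agent.H.Cox
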